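import Pool.Agent.Helper33.HK.Equiv

/-!
# Invariance of `T_c μ` under the translation by `1 / m`
-/

set_option autoImplicit false

open MeasureTheory Filter Topology Set
open scoped ENNReal

namespace Pool.Agent.Helper33.HP

open Pool.Agent.K3h68.IL Pool.Agent.R202.STP Pool.Agent.Helper33.HK

/-- a bound on sets gives a bound for functions with values in `[0, 1]` -/
theorem lintegral_le_of_sets {X : Type*} [MeasurableSpace X] {D D' : Measure X} {ε : ℝ≥0∞}
    (h : ∀ A, MeasurableSet A → D A ≤ D' A + ε) {f : X → ℝ} (hf : Measurable f) (h0 : ∀ x, 0 ≤ f x)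
    (h1 : ∀ x, f x ≤ 1) :
    ∫⁻ x, ENNReal.ofReal (f x) ∂D ≤ ∫⁻ x, ENNReal.ofReal (f x) ∂D' + ε := by
  rw [lintegral_eq_lintegral_meas_lt D (Eventually.of_forall h0) hf.aemeasurable,
    lintegral_eq_lintegral_meas_lt D' (Eventually.of_forall h0) hf.aemeasurable]
  have hme : MeasurableSet (Iio (1 : ℝ)) := measurableSet_Iio
  calc ∫⁻ t in Ioi (0 : ℝ), D {a | t < f a}
      ≤ ∫⁻ t in Ioi (0 : ℝ), (D' {a | t < f a} + (Iio (1 : ℝ)).indicator (fun _ => ε) t) := by
        refine lintegral_mono fun t => ?_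
        by_cases ht : t < 1
        · rw [indicator_of_mem (show t ∈ Iio (1 : ℝ) from ht)]
          exact h _ (measurableSet_lt measurable_const hf)
        · rw [indicator_of_notMem (show t ∉ Iio (1 : ℝ) from ht), add_zero]
          have : {a | t < f a} = ∅ := by
            ext a
            simp only [mem_ofPred_eq, mem_empty_iff_false, iff_false, not_lt]
            exact (h1 a).trans (not_lt.1 ht)
          rw [this]
          simp
    _ = (∫⁻ t in Ioi (0 : ℝ), D' {a | t < f a}) +
          ∫⁻ t in Ioi (0 : ℝ), (Iio (1 : ℝ)).indicator (fun _ => ε) t := by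
        rw [lintegral_add_right _ (measurable_const.indicator hme)]
    _ = (∫⁻ t in Ioi (0 : ℝ), D' {a | t < f a}) + ε := by
        congr 1
        rw [lintegral_indicator hme, lintegral_const, Measure.restrict_restrict hme,
          Measure.restrict_apply MeasurableSet.univ, univ_inter]
        have : Iio (1 : ℝ) ∩ Ioi 0 = Ioo 0 1 := by
          ext t
          simp [and_comm]
        rw [this, Real.volume_Ioo]
        simp

/-- the mean of the characters `b 0, …, b (m - 1)` -/
noncomputable def mch (m : ℕ) (b : ℕ → ℤ) (w : UnitAddCircle) : ℂ :=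
  (m : ℂ)⁻¹ * ∑ i ∈ Finset.range m, (fourier (b i) w : ℂ)

lemma mch_cont (m : ℕ) (b : ℕ → ℤ) : Continuous (mch m b) := by
  unfold mch
  refine continuous_const.mul (continuous_finsetSum _ fun i _ => ?_)
  exact (fourier (b i)).continuous

lemma mch_le {m : ℕ} (hm : 0 < m) (b : ℕ → ℤ) (w : UnitAddCircle) : ‖mch m b w‖ ≤ 1 := by
  unfold mch
  rw [norm_mul, norm_inv, Complex.norm_natCast]
  have hm' : (0 : ℝ) < m := by exact_mod_cast hm
  rw [inv_mul_le_iff₀ hm', mul_one]
  refine (norm_sum_le _ _).trans ?_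
  calc ∑ i ∈ Finset.range m, ‖(fourier (b i) w : ℂ)‖ ≤ ∑ _i ∈ Finset.range m, (1 : ℝ) :=
        Finset.sum_le_sum fun i _ => by
          rw [fourier_apply]
          exact (Circle.norm_coe _).le
    _ = m := by simp

lemma parseval_shift {m : ℕ} (hm : 0 < m) {b : ℕ → ℤ}
    (h : ∀ i j : ℕ, i < m → j < m → (m : ℤ) ∣ b i - b j → i = j) (w : UnitAddCircle) :
    ∑ j ∈ Finset.range m, ‖mch m b (w + j • uu m)‖ ^ 2 = 1 := by
  have hmC : (m : ℂ) ≠ 0 := by exact_mod_cast hm.ne'
  apply Complex.ofReal_injective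
  push_cast
  have e1 : ∀ x : UnitAddCircle, ((‖mch m b x‖ : ℂ)) ^ 2 = (m : ℂ)⁻¹ * (m : ℂ)⁻¹ *
      ∑ i ∈ Finset.range m, ∑ l ∈ Finset.range m, (fourier (b i - b l) x : ℂ) := by
    intro x
    have : ∀ w : ℂ, ((‖w‖ : ℂ)) ^ 2 = w * (starRingEnd ℂ) w := by
      intro w
      rw [Complex.mul_conj, Complex.normSq_eq_norm_sq]
      push_cast
      rfl
    unfold mch
    rw [this, map_mul, map_inv₀, Complex.conj_natCast, map_sum]
    have e2 : (∑ i ∈ Finset.range m, (fourier (b i) x : ℂ)) *
        ∑ l ∈ Finset.range m, (starRingEnd ℂ) (fourier (b l) x : ℂ) =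
        ∑ i ∈ Finset.range m, ∑ l ∈ Finset.range m, (fourier (b i - b l) x : ℂ) := by
      rw [Finset.sum_mul_sum]
      refine Finset.sum_congr rfl fun i _ => Finset.sum_congr rfl fun l _ => ?_
      rw [← fourier_neg, ← fourier_add, sub_eq_add_neg]
    rw [← e2]
    ring
  rw [Finset.sum_congr rfl fun j _ => e1 (w + j • uu m), ← Finset.mul_sum, Finset.sum_comm]
  have e3 : ∀ i ∈ Finset.range m, ∑ j ∈ Finset.range m, ∑ l ∈ Finset.range m,
      (fourier (b i - b l) (w + j • uu m) : ℂ) = m := by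
    intro i hi
    rw [Finset.sum_comm, Finset.sum_eq_single_of_mem i hi]
    · simp
    · intro l hl hli
      rw [sum_coset hm, if_neg]
      intro hd
      exact hli (h i l (Finset.mem_range.1 hi) (Finset.mem_range.1 hl) hd).symm
  rw [Finset.sum_congr rfl e3, Finset.sum_const, Finset.card_range, nsmul_eq_mul]
  field_simp

/-- the mean square with respect to an almost invariant measure -/
theorem mean_square {m : ℕ} (hm : 0 < m) {b : ℕ → ℤ}
    (h : ∀ i j : ℕ, i < m → j < m → (m : ℤ) ∣ b i - b j → i = j) {D : Measure UnitAddCircle}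
    [IsProbabilityMeasure D] {ε : ℝ≥0∞}
    (hD : ∀ A, MeasurableSet A → D A ≤ D ((fun x => x + uu m) ⁻¹' A) + ε) {J : ℕ}
    (hJm : J ≤ m) :
    J * ∫⁻ w, ENNReal.ofReal (‖mch m b w‖ ^ 2) ∂D ≤ 1 + J * (J * ε) := by
  have hmeas : Measurable fun w => ‖mch m b w‖ ^ 2 := ((mch_cont m b).norm.pow 2).measurable
  have hshift : ∀ j : ℕ, ∫⁻ w, ENNReal.ofReal (‖mch m b w‖ ^ 2) ∂D ≤
      ∫⁻ w, ENNReal.ofReal (‖mch m b (w + j • uu m)‖ ^ 2) ∂D + j * ε := by
    intro j
    induction j with
    | zero => simp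
    | succ j ih =>
      have hadd : Measurable fun x : UnitAddCircle => x + uu m := measurable_add_const _
      have h2 : ∫⁻ w, ENNReal.ofReal (‖mch m b (w + j • uu m)‖ ^ 2) ∂D ≤
          ∫⁻ w, ENNReal.ofReal (‖mch m b (w + (j + 1) • uu m)‖ ^ 2) ∂D + ε := by
        have h3 := lintegral_le_of_sets (D := D) (D' := D.map fun x => x + uu m) (ε := ε)
          (fun A hA => by rw [Measure.map_apply hadd hA]; exact hD A hA)
          (f := fun w => ‖mch m b (w + j • uu m)‖ ^ 2)
          (hmeas.comp (measurable_add_const _)) (fun x => sq_nonneg _) (fun x => by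
            have := mch_le hm b (x + j • uu m)
            have h0 := norm_nonneg (mch m b (x + j • uu m))
            nlinarith)
        have hmm : Measurable fun w : UnitAddCircle =>
            ENNReal.ofReal (‖mch m b (w + j • uu m)‖ ^ 2) :=
          (hmeas.comp (measurable_add_const (j • uu m))).ennreal_ofReal
        rw [lintegral_map hmm hadd] at h3
        refine h3.trans (le_of_eq ?_)
        congr 1
        refine lintegral_congr fun w => ?_
        have : w + (j + 1) • uu m = w + uu m + j • uu m := by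
          rw [add_smul, one_smul]
          abel
        rw [this]
      calc ∫⁻ w, ENNReal.ofReal (‖mch m b w‖ ^ 2) ∂D
          ≤ ∫⁻ w, ENNReal.ofReal (‖mch m b (w + j • uu m)‖ ^ 2) ∂D + j * ε := ih
        _ ≤ (∫⁻ w, ENNReal.ofReal (‖mch m b (w + (j + 1) • uu m)‖ ^ 2) ∂D + ε) + j * ε := by gcongr
        _ = _ := by push_cast; ring
  have hsum : ∑ j ∈ Finset.range J, ∫⁻ w, ENNReal.ofReal (‖mch m b (w + j • uu m)‖ ^ 2) ∂D ≤ 1 := by
    rw [← lintegral_finsetSum]
    · calc ∫⁻ w, ∑ j ∈ Finset.range J, ENNReal.ofReal (‖mch m b (w + j • uu m)‖ ^ 2) ∂D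
          ≤ ∫⁻ _w, 1 ∂D := by
            refine lintegral_mono fun w => ?_
            rw [← ENNReal.ofReal_sum_of_nonneg fun j _ => sq_nonneg _]
            have h9 : ∑ j ∈ Finset.range J, ‖mch m b (w + j • uu m)‖ ^ 2 ≤ 1 := by
              refine le_trans ?_ (parseval_shift hm h w).le
              exact Finset.sum_le_sum_of_subset_of_nonneg (Finset.range_mono hJm)
                fun j _ _ => sq_nonneg _
            exact (ENNReal.ofReal_le_ofReal h9).trans (by simp)
        _ = 1 := by simp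
    · intro j _
      exact (hmeas.comp (measurable_add_const _)).ennreal_ofReal
  calc (J : ℝ≥0∞) * ∫⁻ w, ENNReal.ofReal (‖mch m b w‖ ^ 2) ∂D
      = ∑ _j ∈ Finset.range J, ∫⁻ w, ENNReal.ofReal (‖mch m b w‖ ^ 2) ∂D := by
        rw [Finset.sum_const, Finset.card_range, nsmul_eq_mul]
    _ ≤ ∑ j ∈ Finset.range J, (∫⁻ w, ENNReal.ofReal (‖mch m b (w + j • uu m)‖ ^ 2) ∂D + J * ε) := by
        refine Finset.sum_le_sum fun j hj => (hshift j).trans ?_
        have : j ≤ J := (Finset.mem_range.1 hj).le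
        gcongr
    _ = ∑ j ∈ Finset.range J, ∫⁻ w, ENNReal.ofReal (‖mch m b (w + j • uu m)‖ ^ 2) ∂D +
          J * (J * ε) := by
        rw [Finset.sum_add_distrib, Finset.sum_const, Finset.card_range, nsmul_eq_mul]
    _ ≤ 1 + J * (J * ε) := by gcongr

/-- **The inequality.** -/
theorem coef_le {p : ℕ} {μ : Measure UnitAddCircle} [IsProbabilityMeasure μ]
    (hμ : MeasurePreserving (fun x : UnitAddCircle => p • x) μ μ) {c m o : ℕ} {k a : ℤ}
    (hm : 0 < m) (hmc : m ∣ c) (hk : (p : ℤ) ^ o = 1 + c * k) (hak : IsCoprime (a * k) (m : ℤ))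
    {ε : ℝ≥0∞}
    (hD : ∀ A, MeasurableSet A → img c μ A ≤ img c μ ((fun x => x + uu m) ⁻¹' A) + ε) {J : ℕ}
    (hJm : J ≤ m) :
    J * ENNReal.ofReal (‖cf μ a‖ ^ 2) ≤ 1 + J * (J * ε) := by
  -- the numbers `k i`
  have hki : ∀ i : ℕ, ∃ l : ℤ, (p : ℤ) ^ (o * i) = 1 + c * l ∧ (c : ℤ) ∣ l - i * k := by
    intro i
    induction i with
    | zero => exact ⟨0, by simp, by simp⟩
    | succ i ih =>
      obtain ⟨l, h1, h2⟩ := ih
      refine ⟨l + k + c * l * k, ?_, ?_⟩
      · rw [Nat.mul_succ, pow_add, h1, hk]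
        ring
      · have : l + k + c * l * k - ((i + 1 : ℕ) : ℤ) * k = (l - i * k) + c * (l * k) := by
          push_cast
          ring
        rw [this]
        exact dvd_add h2 (dvd_mul_right _ _)
  choose l hl1 hl2 using hki
  set b : ℕ → ℤ := fun i => a * l i with hb
  have hinj : ∀ i j : ℕ, i < m → j < m → (m : ℤ) ∣ b i - b j → i = j := by
    intro i j hi hj hd
    have hmc' : (m : ℤ) ∣ (c : ℤ) := by exact_mod_cast hmc
    have h3 : (m : ℤ) ∣ ((i : ℤ) - j) * (a * k) := by
      have h4 : (m : ℤ) ∣ a * ((l i - i * k) - (l j - j * k)) :=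
        (dvd_sub (hmc'.trans (hl2 i)) (hmc'.trans (hl2 j))).mul_left _
      have h5 := dvd_sub hd h4
      have h6 : b i - b j - a * ((l i - i * k) - (l j - j * k)) = ((i : ℤ) - j) * (a * k) := by
        simp only [hb]
        ring
      rwa [h6] at h5
    have h7 : (m : ℤ) ∣ (i : ℤ) - j := hak.symm.dvd_of_dvd_mul_right h3
    obtain ⟨t, ht⟩ := h7
    have h8 : |(i : ℤ) - j| < m := by
      rw [abs_lt]
      constructor <;> omega
    rw [ht, abs_mul, Nat.abs_cast] at h8
    have h9 : |t| < 1 := by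
      by_contra hcon
      push Not at hcon
      have : (m : ℤ) * 1 ≤ m * |t| := by gcongr
      linarith
    have h10 : t = 0 := Int.abs_lt_one_iff.1 h9
    rw [h10, mul_zero] at ht
    omega
  -- the coefficient as an integral
  have hprob : IsProbabilityMeasure (img c μ) :=
    Measure.isProbabilityMeasure_map (meas_nsmul _).aemeasurable
  have hco : cf μ a = ∫ x, (fourier a x : ℂ) * mch m b (c • x) ∂μ := by
    have h1 : ∀ i : ℕ, cf μ a = ∫ x, (fourier a x : ℂ) * (fourier (b i) (c • x) : ℂ) ∂μ := by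
      intro i
      rw [← cf_pow hμ a (o * i)]
      show ∫ x, _ ∂μ = _
      refine integral_congr_ae (Eventually.of_forall fun x => ?_)
      show (fourier (a * (p : ℤ) ^ (o * i)) x : ℂ) =
        (fourier a x : ℂ) * (fourier (b i) (c • x) : ℂ)
      rw [fourier_nsmul, ← fourier_add, hl1]
      congr 2
      simp only [hb]
      ring
    have h2 : ∫ x, (fourier a x : ℂ) * mch m b (c • x) ∂μ =
        (m : ℂ)⁻¹ * ∑ i ∈ Finset.range m, ∫ x, (fourier a x : ℂ) * (fourier (b i) (c • x) : ℂ) ∂μ := by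
      rw [← integral_finsetSum, ← integral_const_mul]
      · refine integral_congr_ae (Eventually.of_forall fun x => ?_)
        show (fourier a x : ℂ) * mch m b (c • x) = (m : ℂ)⁻¹ * ∑ i ∈ Finset.range m, _
        unfold mch
        rw [← Finset.mul_sum]
        ring
      · intro i _
        refine Integrable.of_bound (C := 1) ?_ (Eventually.of_forall fun x => ?_)
        · refine Continuous.aestronglyMeasurable ?_
          exact (fourier a).continuous.mul ((fourier (b i)).continuous.comp (continuous_nsmul c))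
        · rw [norm_mul, fourier_apply, fourier_apply, Circle.norm_coe, Circle.norm_coe, mul_one]
    rw [h2, Finset.sum_congr rfl fun i _ => (h1 i).symm, Finset.sum_const, Finset.card_range,
      nsmul_eq_mul, ← mul_assoc, inv_mul_cancel₀ (by exact_mod_cast hm.ne'), one_mul]
  have hsq : ENNReal.ofReal (‖cf μ a‖ ^ 2) ≤ ∫⁻ w, ENNReal.ofReal (‖mch m b w‖ ^ 2) ∂(img c μ) := by
    have hcont : Continuous fun x : UnitAddCircle => ‖mch m b (c • x)‖ :=
      ((mch_cont m b).comp (continuous_nsmul c)).norm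
    have hint : Integrable (fun x : UnitAddCircle => ‖mch m b (c • x)‖) μ :=
      Integrable.of_bound (C := 1) hcont.aestronglyMeasurable (Eventually.of_forall fun x => by
        rw [norm_norm]
        exact mch_le hm b _)
    have hint2 : Integrable (fun x : UnitAddCircle => ‖mch m b (c • x)‖ ^ 2) μ :=
      Integrable.of_bound (C := 1) (hcont.pow 2).aestronglyMeasurable (Eventually.of_forall fun x => by
        rw [Real.norm_of_nonneg (sq_nonneg _)]
        have h1 := mch_le hm b (c • x)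
        have h0 := norm_nonneg (mch m b (c • x))
        nlinarith)
    have h3 : ‖cf μ a‖ ≤ ∫ x, ‖mch m b (c • x)‖ ∂μ := by
      rw [hco]
      refine (norm_integral_le_integral_norm _).trans (le_of_eq ?_)
      refine integral_congr_ae (Eventually.of_forall fun x => ?_)
      show ‖(fourier a x : ℂ) * mch m b (c • x)‖ = _
      rw [norm_mul, fourier_apply, Circle.norm_coe, one_mul]
    have h4 : (∫ x, ‖mch m b (c • x)‖ ∂μ) ^ 2 ≤ ∫ x, ‖mch m b (c • x)‖ ^ 2 ∂μ := by
      have h5 : 0 ≤ ∫ x, (‖mch m b (c • x)‖ - ∫ y, ‖mch m b (c • y)‖ ∂μ) ^ 2 ∂μ :=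
        integral_nonneg fun x => sq_nonneg _
      have h6 : ∫ x, (‖mch m b (c • x)‖ - ∫ y, ‖mch m b (c • y)‖ ∂μ) ^ 2 ∂μ =
          ∫ x, ‖mch m b (c • x)‖ ^ 2 ∂μ - (∫ x, ‖mch m b (c • x)‖ ∂μ) ^ 2 := by
        set I := ∫ y, ‖mch m b (c • y)‖ ∂μ with hI
        have : ∀ x, (‖mch m b (c • x)‖ - I) ^ 2 =
            ‖mch m b (c • x)‖ ^ 2 - (2 * I) * ‖mch m b (c • x)‖ + I ^ 2 := fun x => by ring
        simp_rw [this]
        have i1 : Integrable (fun x : UnitAddCircle => ‖mch m b (c • x)‖ ^ 2 -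
            (2 * I) * ‖mch m b (c • x)‖) μ := hint2.sub (hint.const_mul _)
        have i2 : Integrable (fun x : UnitAddCircle => (2 * I) * ‖mch m b (c • x)‖) μ :=
          hint.const_mul _
        have i3 : Integrable (fun _ : UnitAddCircle => I ^ 2) μ := integrable_const _
        rw [integral_add i1 i3, integral_sub hint2 i2, integral_const_mul, integral_const, ← hI]
        simp
        ring
      linarith
    have h7 : ∫⁻ w, ENNReal.ofReal (‖mch m b w‖ ^ 2) ∂(img c μ) =
        ENNReal.ofReal (∫ x, ‖mch m b (c • x)‖ ^ 2 ∂μ) := by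
      have hmm : Measurable fun w : UnitAddCircle => ENNReal.ofReal (‖mch m b w‖ ^ 2) :=
        ((mch_cont m b).norm.pow 2).measurable.ennreal_ofReal
      rw [img, lintegral_map hmm (meas_nsmul c),
        ofReal_integral_eq_lintegral_ofReal hint2 (Eventually.of_forall fun x => sq_nonneg _)]
    rw [h7]
    refine ENNReal.ofReal_le_ofReal ?_
    have h0 := norm_nonneg (cf μ a)
    nlinarith
  calc (J : ℝ≥0∞) * ENNReal.ofReal (‖cf μ a‖ ^ 2)
      ≤ J * ∫⁻ w, ENNReal.ofReal (‖mch m b w‖ ^ 2) ∂(img c μ) := by gcongr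
    _ ≤ 1 + J * (J * ε) := mean_square hm hinj hD hJm

end Pool.Agent.Helper33.HP
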