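import Pool.Agent.Helper33.HP.Ineq

/-!
# Coefficients determined by finitely many coordinates
-/

set_option autoImplicit false

open MeasureTheory Filter Topology Set
open scoped ENNReal

namespace Pool.Agent.Helper33.HP

open Pool.Agent.K3h68.IL Pool.Agent.R202.STP Pool.Agent.Helper33.HK

theorem small_coeffs {r : ℕ} (v : Fin r → ℤ → ℂ) : ∃ (F : ℕ) (C : ℝ), 0 ≤ C ∧
    ∀ (c : Fin r → ℝ) (δ : ℝ), 0 ≤ δ →
      (∀ n : ℤ, n ≠ 0 → |n| ≤ F → ‖∑ i, (c i : ℂ) * v i n‖ ≤ δ) →
      ∃ d : Fin r → ℝ, (∀ i, |d i| ≤ C * δ) ∧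
        ∀ n : ℤ, n ≠ 0 → ∑ i, (d i : ℂ) * v i n = ∑ i, (c i : ℂ) * v i n := by
  classical
  set w : Fin r → ℤ → ℂ := fun i n => if n = 0 then 0 else v i n with hw
  obtain ⟨κ, a, ha, hsp, hli⟩ := exists_linearIndependent' ℝ w
  have hfin : Finite κ := Finite.of_injective a ha
  have := Fintype.ofFinite κ
  set f : (κ → ℝ) →ₗ[ℝ] (ℤ → ℂ) := Fintype.linearCombination ℝ (w ∘ a) with hf
  have hker : LinearMap.ker f = ⊥ := by
    rw [hf]
    exact LinearMap.ker_eq_bot.2 (linearIndependent_iff_injective_fintypeLinearCombination.1 hli)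
  -- the kernels of the restrictions
  set K : ℕ → Submodule ℝ (κ → ℝ) := fun N =>
    { carrier := {c | ∀ n : ℤ, |n| ≤ N → f c n = 0}
      add_mem' := fun {x y} hx hy n hn => by rw [map_add, Pi.add_apply, hx n hn, hy n hn, add_zero]
      zero_mem' := fun n _ => by rw [map_zero, Pi.zero_apply]
      smul_mem' := fun t x hx n hn => by rw [map_smul, Pi.smul_apply, hx n hn, smul_zero] } with hK
  have hanti : Antitone K := fun N M hNM c hc n hn => hc n (hn.trans (by exact_mod_cast hNM))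
  obtain ⟨N, hN⟩ := IsArtinian.monotone_stabilizes (R := ℝ) (M := κ → ℝ)
    ⟨fun n => OrderDual.toDual (K n), fun n m hnm => hanti hnm⟩
  have hN' : ∀ m, N ≤ m → K N = K m := fun m hm => hN m hm
  have hKN : K N = ⊥ := by
    rw [eq_bot_iff]
    intro c hc
    rw [← hker, LinearMap.mem_ker]
    ext n
    have h1 : c ∈ K (max N n.natAbs) := by
      rw [← hN' _ (le_max_left _ _)]
      exact hc
    exact h1 n (by rw [Int.abs_eq_natAbs]; exact_mod_cast le_max_right _ _)
  set g : (κ → ℝ) →ₗ[ℝ] ((Finset.Icc (-(N : ℤ)) N) → ℂ) :=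
    (LinearMap.funLeft ℝ ℂ (fun n : (Finset.Icc (-(N : ℤ)) N) => (n : ℤ))) ∘ₗ f with hg
  have hgker : LinearMap.ker g = ⊥ := by
    rw [eq_bot_iff, ← hKN]
    intro c hc n hn
    have h1 : g c = 0 := hc
    have h2 : n ∈ Finset.Icc (-(N : ℤ)) N := Finset.mem_Icc.2 (abs_le.1 hn)
    exact congrFun h1 ⟨n, h2⟩
  obtain ⟨C, hC, hanti⟩ := g.exists_antilipschitzWith hgker
  refine ⟨N, C, C.2, fun c δ hδ h => ?_⟩
  have hx : (∑ i, c i • w i) ∈ Submodule.span ℝ (range w) :=
    Submodule.sum_mem _ fun i _ => Submodule.smul_mem _ _ (Submodule.subset_span ⟨i, rfl⟩)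
  rw [← hsp] at hx
  obtain ⟨e, he⟩ := (Submodule.mem_span_range_iff_exists_fun ℝ).1 hx
  have hfe : f e = ∑ i, c i • w i := by
    rw [hf, Fintype.linearCombination_apply]
    exact he
  have hval : ∀ n, f e n = ∑ i, (c i : ℂ) * w i n := by
    intro n
    rw [hfe, Finset.sum_apply]
    rfl
  have hcn : ‖e‖ ≤ C * δ := by
    have h1 := hanti.le_mul_dist e 0
    rw [dist_zero_right, map_zero, dist_zero_right] at h1
    refine h1.trans (mul_le_mul_of_nonneg_left ?_ C.2)
    rw [pi_norm_le_iff_of_nonneg hδ]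
    intro n
    show ‖f e n‖ ≤ δ
    rw [hval]
    by_cases hn0 : (n : ℤ) = 0
    · simp [hw, hn0, hδ]
    · have := h n hn0 (abs_le.2 (Finset.mem_Icc.1 n.2))
      simpa [hw, hn0] using this
  refine ⟨fun i => ∑ j, if a j = i then e j else 0, fun i => ?_, fun n hn => ?_⟩
  · by_cases hi : ∃ j, a j = i
    · obtain ⟨j, rfl⟩ := hi
      have : (∑ j', if a j' = a j then e j' else 0) = e j := by
        rw [Finset.sum_eq_single j]
        · simp
        · intro b _ hb
          rw [if_neg fun h => hb (ha h)]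
        · simp
      show |∑ j', if a j' = a j then e j' else 0| ≤ C * δ
      rw [this]
      exact (norm_le_pi_norm e j).trans hcn
    · push Not at hi
      have : (∑ j', if a j' = i then e j' else 0) = 0 :=
        Finset.sum_eq_zero fun j _ => if_neg (hi j)
      show |∑ j', if a j' = i then e j' else 0| ≤ C * δ
      rw [this, abs_zero]
      exact mul_nonneg C.2 hδ
  · have e1 : ∑ i, (c i : ℂ) * v i n = f e n := by
      rw [hval]
      refine Finset.sum_congr rfl fun i _ => ?_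
      simp [hw, hn]
    rw [e1, hf, Fintype.linearCombination_apply, Finset.sum_apply]
    have e2 : ∀ i, ((∑ j, if a j = i then e j else 0 : ℝ) : ℂ) * v i n =
        ∑ j, if a j = i then (e j : ℂ) * v i n else 0 := by
      intro i
      rw [Complex.ofReal_sum, Finset.sum_mul]
      refine Finset.sum_congr rfl fun j _ => ?_
      split_ifs <;> simp
    rw [Finset.sum_congr rfl fun i _ => e2 i, Finset.sum_comm]
    refine Finset.sum_congr rfl fun j _ => ?_
    simp [hw, hn]

end Pool.Agent.Helper33.HP
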