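import Pool.Agent.Helper33.HP.Small
import Pool.Graph.R_seed8.TH463.UR.Main
import Pool.Graph.R_pool_sql_team_seeded_2aa45f1a.H185.XQ.Basic

/-!
# Hecke relations along primes
-/

set_option autoImplicit false

open MeasureTheory Filter Topology Set
open scoped ENNReal

namespace Pool.Agent.Helper33.HP

open Pool.Agent.K3h68.IL Pool.Agent.R202.STP Pool.Agent.Helper33.HK

/-- the inequality with real numbers -/
theorem coef_le_real {p : ℕ} {μ : Measure UnitAddCircle} [IsProbabilityMeasure μ]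
    (hμ : MeasurePreserving (fun x : UnitAddCircle => p • x) μ μ) {c m o : ℕ} {k a : ℤ}
    (hm : 0 < m) (hmc : m ∣ c) (hk : (p : ℤ) ^ o = 1 + c * k) (hak : IsCoprime (a * k) (m : ℤ))
    {ε : ℝ} (hε : 0 ≤ ε)
    (hD : ∀ A : Set UnitAddCircle, MeasurableSet A →
      μ.real {x | c • x ∈ A} ≤ μ.real {x | c • x + uu m ∈ A} + ε) {J : ℕ}
    (hJm : J ≤ m) :
    J * ‖cf μ a‖ ^ 2 ≤ 1 + (J : ℝ) ^ 2 * ε := by
  have h1 := coef_le hμ (ε := ENNReal.ofReal ε) hm hmc hk hak (fun A hA => ?_) hJm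
  · have h2 : (J : ℝ≥0∞) * ENNReal.ofReal (‖cf μ a‖ ^ 2) = ENNReal.ofReal (J * ‖cf μ a‖ ^ 2) := by
      rw [ENNReal.ofReal_mul (Nat.cast_nonneg _), ENNReal.ofReal_natCast]
    have h3 : 1 + (J : ℝ≥0∞) * (J * ENNReal.ofReal ε) = ENNReal.ofReal (1 + (J : ℝ) ^ 2 * ε) := by
      rw [ENNReal.ofReal_add zero_le_one (by positivity), ENNReal.ofReal_one, sq, mul_assoc,
        ENNReal.ofReal_mul (Nat.cast_nonneg _), ENNReal.ofReal_mul (Nat.cast_nonneg _),
        ENNReal.ofReal_natCast]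
    rw [h2, h3] at h1
    exact (ENNReal.ofReal_le_ofReal_iff (by positivity)).1 h1
  · have hadd : Measurable fun x : UnitAddCircle => x + uu m := measurable_add_const _
    have h2 := hD A hA
    rw [img, Measure.map_apply (meas_nsmul _) hA, Measure.map_apply (meas_nsmul _) (hadd hA)]
    have e1 : μ {x | c • x ∈ A} = ENNReal.ofReal (μ.real {x | c • x ∈ A}) :=
      (ofReal_measureReal (measure_ne_top _ _)).symm
    have e2 : μ {x | c • x + uu m ∈ A} = ENNReal.ofReal (μ.real {x | c • x + uu m ∈ A}) :=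
      (ofReal_measureReal (measure_ne_top _ _)).symm
    show μ {x | c • x ∈ A} ≤ μ {x | c • x + uu m ∈ A} + ENNReal.ofReal ε
    rw [e1, e2, ← ENNReal.ofReal_add measureReal_nonneg hε]
    exact ENNReal.ofReal_le_ofReal h2

/-- the gap for a power of a prime -/
theorem power_gap {p : ℕ} {μ : Measure UnitAddCircle} [IsProbabilityMeasure μ]
    (hμ : MeasurePreserving (fun x : UnitAddCircle => p • x) μ μ) {l v : ℕ} (hl : l.Prime)
    (hv : 1 ≤ v) (hw1 : ((l ^ v : ℕ) : ℤ) ∣ (p : ℤ) ^ (l - 1) - 1)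
    (hw2 : ¬ ((l ^ (v + 1) : ℕ) : ℤ) ∣ (p : ℤ) ^ (l - 1) - 1) {a : ℤ} (ha : ¬ (l : ℤ) ∣ a)
    (hla : 3 ≤ l * ‖cf μ a‖ ^ 2) :
    ∃ A : Set UnitAddCircle, MeasurableSet A ∧
      μ.real {x | (l ^ v) • x + uu l ∈ A} + ‖cf μ a‖ ^ 4 / 5 ≤ μ.real {x | (l ^ v) • x ∈ A} := by
  obtain ⟨k, hk⟩ := hw1
  have hk' : (p : ℤ) ^ (l - 1) = 1 + (l ^ v : ℕ) * k := by linarith
  have hlk : ¬ (l : ℤ) ∣ k := by
    rintro ⟨t, rfl⟩
    apply hw2
    rw [hk]
    exact ⟨t, by push_cast; ring⟩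
  have hli : Prime (l : ℤ) := Nat.prime_iff_prime_int.1 hl
  have hco : IsCoprime (a * k) (l : ℤ) := by
    rw [isCoprime_comm]
    refine (Prime.coprime_iff_not_dvd hli).2 fun h => ?_
    rcases hli.dvd_or_dvd h with h | h
    · exact ha h
    · exact hlk h
  by_contra hcon
  push Not at hcon
  set δ : ℝ := ‖cf μ a‖ ^ 2 with hδ
  have hδ0 : 0 < δ := by
    rcases (sq_nonneg ‖cf μ a‖).eq_or_lt with h | h
    · rw [hδ, ← h] at hla
      norm_num at hla
    · exact h
  have hδ1 : δ ≤ 1 := by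
    have := Pool.Agent.Helper33.HK.norm_cf_le μ a
    have h0 := norm_nonneg (cf μ a)
    rw [hδ]
    nlinarith
  set J : ℕ := ⌈2 / δ⌉₊ with hJ
  have hJ1 : 2 / δ ≤ J := Nat.le_ceil _
  have hJ2 : (J : ℝ) < 2 / δ + 1 := Nat.ceil_lt_add_one (by positivity)
  have hJl : J ≤ l := by
    have h3 : (J : ℝ) * δ < l * δ := by
      calc (J : ℝ) * δ < (2 / δ + 1) * δ := by gcongr
        _ = 2 + δ := by field_simp
        _ ≤ 3 := by linarith
        _ ≤ l * δ := hla
    exact_mod_cast (lt_of_mul_lt_mul_right h3 hδ0.le).le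
  have h4 := coef_le_real hμ hl.pos (dvd_pow_self l (by omega)) hk' hco
    (ε := ‖cf μ a‖ ^ 4 / 5) (by positivity) (fun A hA => (hcon A hA).le) hJl
  have h5 : ‖cf μ a‖ ^ 4 = δ ^ 2 := by rw [hδ]; ring
  rw [h5, ← hδ] at h4
  have h6 : 2 ≤ J * δ := by
    have := mul_le_mul_of_nonneg_right hJ1 hδ0.le
    rwa [div_mul_cancel₀ _ hδ0.ne'] at this
  have h7 : J * δ ≤ 3 := by
    have := mul_le_mul_of_nonneg_right hJ2.le hδ0.le
    have h8 : (2 / δ + 1) * δ = 2 + δ := by field_simp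
    linarith
  have h8 : (J : ℝ) ^ 2 * (δ ^ 2 / 5) = (J * δ) ^ 2 / 5 := by ring
  rw [h8] at h4
  nlinarith

/-- the gap for a prime -/
theorem prime_gap {p : ℕ} {μ : Measure UnitAddCircle} [IsProbabilityMeasure μ]
    (hμ : MeasurePreserving (fun x : UnitAddCircle => p • x) μ μ) {l : ℕ} (hl : l.Prime)
    (hlp : ¬ l ∣ p) (hw : ¬ l ^ 2 ∣ p ^ (l - 1) - 1) {a : ℤ} (ha : ¬ (l : ℤ) ∣ a)
    (hla : 3 ≤ l * ‖cf μ a‖ ^ 2) :
    ∃ A : Set UnitAddCircle, MeasurableSet A ∧
      μ.real {x | l • x + uu l ∈ A} + ‖cf μ a‖ ^ 4 / 5 ≤ μ.real {x | l • x ∈ A} := by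
  have hcop : IsCoprime (p : ℤ) (l : ℤ) := by
    rw [Nat.isCoprime_iff_coprime]
    exact ((Nat.Prime.coprime_iff_not_dvd hl).2 hlp).symm
  have h1 : (p : ℤ) ^ (l - 1) ≡ 1 [ZMOD l] := Int.ModEq.pow_card_sub_one_eq_one hl hcop
  have hp0 : 0 < p := by
    rcases Nat.eq_zero_or_pos p with h | h
    · exact absurd (h ▸ dvd_zero l) hlp
    · exact h
  have h2 := power_gap hμ (v := 1) hl le_rfl (by rw [pow_one]; exact h1.symm.dvd) (fun h => hw ?_)
    ha hla
  · rw [pow_one] at h2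
    exact h2
  · have h3 : ((l ^ 2 : ℕ) : ℤ) ∣ ((p ^ (l - 1) - 1 : ℕ) : ℤ) := by
      rw [Nat.cast_sub (Nat.one_le_pow _ _ hp0)]
      push_cast
      exact_mod_cast h
    exact_mod_cast h3

lemma four_uu' {l : ℕ} (hl : 0 < l) {n : ℤ} (h : ¬ (l : ℤ) ∣ n) : (fourier n (uu l) : ℂ) ≠ 1 := by
  intro h1
  apply h
  rw [fourier_apply] at h1
  have h2 : n • uu l = 0 := by
    have h3 : AddCircle.toCircle (n • uu l) = 1 := by
      apply Circle.ext
      rw [h1]
      rfl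
    rw [← AddCircle.toCircle_zero] at h3
    exact AddCircle.injective_toCircle one_ne_zero h3
  have h3 : ((addOrderOf (uu l) : ℕ) : ℤ) ∣ n := addOrderOf_dvd_iff_zsmul_eq_zero.2 h2
  rwa [order_uu hl] at h3

theorem universal {C : Set ℕ} (hC : ∀ l ∈ C, l.Prime) {p : ℕ} (hp : 2 ≤ p)
    {μ : Measure UnitAddCircle} [IsProbabilityMeasure μ]
    (hμ : MeasurePreserving (fun x : UnitAddCircle => p • x) μ μ)
    (hlim : ∀ n : ℤ, n ≠ 0 → Tendsto (fun l : ℕ => cf μ (l * n)) (atTop ⊓ 𝓟 C) (𝓝 0))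
    {S : Set ℕ} (hSC : S ⊆ C) (hS : S.Infinite) (hW : ∀ l ∈ S, ¬ l ^ 2 ∣ p ^ (l - 1) - 1)
    {r : ℕ} (ν : Fin r → Measure UnitAddCircle) (hν : ∀ i, IsFiniteMeasure (ν i))
    (hrel : ∀ l ∈ S, ∃ g : Fin r → ℂ, ∀ n : ℤ, ¬ (l : ℤ) ∣ n →
      cf μ (l * n) = ∑ i, g i * cf (ν i) n) :
    μ = volume := by
  obtain ⟨F, K, hK, hsm⟩ := small_coeffs fun i => cf (ν i)
  have hvol : IsProbabilityMeasure (volume : Measure UnitAddCircle) := vol_prob
  -- real coefficients
  have hrel2 : ∀ l ∈ S, ∃ g : Fin r → ℝ, ∀ n : ℤ, ¬ (l : ℤ) ∣ n →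
      cf μ (l * n) = ∑ i, (g i : ℂ) * cf (ν i) n := by
    intro l hl
    obtain ⟨c, hc⟩ := hrel l hl
    refine ⟨fun i => (c i).re, fun n hn => ?_⟩
    have h1 := hc n hn
    have h2 : cf μ (l * n) = ∑ i, (starRingEnd ℂ) (c i) * cf (ν i) n := by
      have h3 := congrArg (starRingEnd ℂ) (hc (-n) (fun h => hn ((dvd_neg).1 h)))
      rw [mul_neg, cf_conj, Complex.conj_conj, map_sum] at h3
      rw [h3]
      refine Finset.sum_congr rfl fun i _ => ?_
      rw [map_mul, cf_conj, Complex.conj_conj]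
    have h4 : (2 : ℂ) * cf μ (l * n) = 2 * ∑ i, (((c i).re : ℝ) : ℂ) * cf (ν i) n := by
      rw [two_mul]
      nth_rewrite 1 [h1]
      rw [h2, ← Finset.sum_add_distrib, Finset.mul_sum]
      refine Finset.sum_congr rfl fun i _ => ?_
      have : c i + (starRingEnd ℂ) (c i) = 2 * ((c i).re : ℂ) := by
        rw [Complex.add_conj]
        push_cast
        ring
      rw [← add_mul, this]
      ring
    exact mul_left_cancel₀ two_ne_zero h4
  by_contra hne
  obtain ⟨a, ha0, ha⟩ : ∃ a : ℤ, a ≠ 0 ∧ cf μ a ≠ 0 := by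
    by_contra hcon
    push Not at hcon
    exact hne (Pool.Agent.H185.XQ.eq_volume fun n hn => hcon n hn)
  set M : ℝ := ∑ i, (ν i).real univ with hM
  have hM0 : 0 ≤ M := Finset.sum_nonneg fun i _ => measureReal_nonneg
  set κ : ℝ := ‖cf μ a‖ ^ 4 / 5 with hκ
  have hκ0 : 0 < κ := by
    have := norm_pos_iff.2 ha
    positivity
  set δ : ℝ := κ / (4 * (K * M + 1)) with hδ
  have hδ0 : 0 < δ := by positivity
  -- the prime
  have hev : ∀ᶠ l : ℕ in atTop ⊓ 𝓟 C, ∀ n : ℤ, n ≠ 0 → |n| ≤ F → ‖cf μ (l * n)‖ ≤ δ := by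
    have h1 : ∀ n ∈ (Finset.Icc (-(F : ℤ)) F), ∀ᶠ l : ℕ in atTop ⊓ 𝓟 C, n ≠ 0 →
        ‖cf μ (l * n)‖ ≤ δ := by
      intro n _
      by_cases hn : n = 0
      · exact Eventually.of_forall fun l h => absurd hn h
      · have h2 := (hlim n hn).norm
        rw [norm_zero] at h2
        filter_upwards [h2.eventually (gt_mem_nhds hδ0)] with l hl _ using hl.le
    have h3 := (Finset.eventually_all (Finset.Icc (-(F : ℤ)) F)).2 h1
    filter_upwards [h3] with l hl n hn hnF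
    exact hl n (Finset.mem_Icc.2 (abs_le.1 hnF)) hn
  obtain ⟨L, hL⟩ : ∃ L : ℕ, 3 ≤ L * ‖cf μ a‖ ^ 2 := by
    have hpos : 0 < ‖cf μ a‖ ^ 2 := by
      have := norm_pos_iff.2 ha
      positivity
    obtain ⟨L, hL⟩ := exists_nat_ge (3 / ‖cf μ a‖ ^ 2)
    exact ⟨L, by rwa [div_le_iff₀ hpos] at hL⟩
  have hfr : ∃ᶠ l : ℕ in atTop ⊓ 𝓟 C, l ∈ S ∧ max (max L p) (max a.natAbs F) < l := by
    rw [frequently_inf_principal]
    rw [Filter.frequently_atTop]
    intro N
    obtain ⟨l, hl, hlN⟩ := hS.exists_gt (max N (max (max L p) (max a.natAbs F)))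
    exact ⟨l, ((le_max_left _ _).trans hlN.le), hSC hl, hl, (le_max_right _ _).trans_lt hlN⟩
  obtain ⟨l, ⟨hlS, hlbig⟩, hlev⟩ := (hfr.and_eventually hev).exists
  have hlpr := hC l (hSC hlS)
  have hL' : L < l := lt_of_le_of_lt ((le_max_left _ _).trans (le_max_left _ _)) hlbig
  have hp' : p < l := lt_of_le_of_lt ((le_max_right _ _).trans (le_max_left _ _)) hlbig
  have ha' : a.natAbs < l := lt_of_le_of_lt ((le_max_left _ _).trans (le_max_right _ _)) hlbig
  have hF' : F < l := lt_of_le_of_lt ((le_max_right _ _).trans (le_max_right _ _)) hlbig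
  have hnd : ∀ n : ℤ, n ≠ 0 → |n| < l → ¬ (l : ℤ) ∣ n := by
    intro n hn hnl h
    have := Int.le_of_dvd (abs_pos.2 hn) ((dvd_abs _ _).2 h)
    omega
  obtain ⟨g, hg⟩ := hrel2 l hlS
  obtain ⟨d, hd1, hd2⟩ := hsm g δ hδ0.le (fun n hn hnF => by
    rw [← hg n (hnd n hn (by omega))]
    exact hlev n hn hnF)
  have hrel3 : ∀ n : ℤ, ¬ (l : ℤ) ∣ n → cf μ (l * n) = ∑ i, (d i : ℂ) * cf (ν i) n := by
    intro n hn
    rw [hd2 n (fun h => hn (h ▸ dvd_zero _))]
    exact hg n hn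
  have hadd : Measurable fun x : UnitAddCircle => x + uu l := measurable_add_const _
  have hdom : ∀ A : Set UnitAddCircle, MeasurableSet A →
      μ.real {x | l • x ∈ A} ≤ μ.real {x | l • x + uu l ∈ A} + κ / 2 := by
    intro A hA
    have h1 := dom_of_rel (img l μ) ν hν d hd1 (uu l) (fun n hn => by
      have hcf : cf (img l μ) n = cf μ (l * n) := by
        rw [cf_map, mul_comm]
      rw [hcf]
      exact hrel3 n (four_uu hlpr.pos hn)) A
    have e1 : img l μ A = μ {x | l • x ∈ A} := Measure.map_apply (meas_nsmul _) hA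
    have e2 : ((img l μ).map fun x => x + uu l) A = μ {x | l • x + uu l ∈ A} := by
      rw [Measure.map_apply hadd hA, Measure.map_apply (meas_nsmul _) (hadd hA)]
      rfl
    rw [e1, e2] at h1
    have e3 : (∑ i, (ν i + (ν i).map fun x => x + uu l)) A ≤ ENNReal.ofReal (2 * M) := by
      rw [Measure.coe_finsetSum, Finset.sum_apply, hM, Finset.mul_sum,
        ENNReal.ofReal_sum_of_nonneg fun i _ => by positivity]
      refine Finset.sum_le_sum fun i _ => ?_
      rw [Measure.add_apply, Measure.map_apply hadd hA, two_mul,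
        ENNReal.ofReal_add measureReal_nonneg measureReal_nonneg,
        ofReal_measureReal (measure_ne_top _ _)]
      exact add_le_add (measure_mono (subset_univ _)) (measure_mono (subset_univ _))
    have h2 : μ {x | l • x ∈ A} ≤ ENNReal.ofReal (μ.real {x | l • x + uu l ∈ A} + κ / 2) := by
      refine h1.trans ?_
      rw [ENNReal.ofReal_add measureReal_nonneg (by positivity),
        ofReal_measureReal (measure_ne_top _ _)]
      gcongr
      calc ENNReal.ofReal (K * δ) * (∑ i, (ν i + (ν i).map fun x => x + uu l)) A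
          ≤ ENNReal.ofReal (K * δ) * ENNReal.ofReal (2 * M) := by gcongr
        _ = ENNReal.ofReal (K * δ * (2 * M)) := by
            rw [← ENNReal.ofReal_mul (by positivity)]
        _ ≤ ENNReal.ofReal (κ / 2) := by
            refine ENNReal.ofReal_le_ofReal ?_
            have h3 : δ * (4 * (K * M + 1)) = κ := by
              rw [hδ]
              field_simp
            have h4 : 0 ≤ K * M := mul_nonneg hK hM0
            nlinarith
    have h3 := ENNReal.toReal_mono ENNReal.ofReal_ne_top h2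
    rw [ENNReal.toReal_ofReal (add_nonneg measureReal_nonneg (by positivity))] at h3
    exact h3
  obtain ⟨A, hA, hA2⟩ := prime_gap hμ hlpr (fun h => by
      have := Nat.le_of_dvd (by omega) h
      omega) (hW l hlS) (hnd a ha0 (by rw [Int.abs_eq_natAbs]; exact_mod_cast ha'))
      (hL.trans (by gcongr))
  have := hdom A hA
  rw [← hκ] at hA2
  linarith

end Pool.Agent.Helper33.HP

namespace Pool.Agent.Helper33.HP

open Pool.Agent.K3h68.IL Pool.Agent.R202.STP Pool.Agent.Helper33.HK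

theorem lim_of_mixing {C : Set ℕ} {μ : Measure UnitAddCircle} [IsProbabilityMeasure μ]
    (h : TH463.UR.Mixing C μ) {n : ℤ} (hn : n ≠ 0) :
    Tendsto (fun l : ℕ => cf μ (l * n)) (atTop ⊓ 𝓟 C) (𝓝 0) := by
  have hvol : IsProbabilityMeasure (volume : Measure UnitAddCircle) := vol_prob
  have hre := h μ inferInstance (Measure.AbsolutelyContinuous.refl _)
    ⟨fun x => ((fourier n x : ℂ)).re, Complex.continuous_re.comp (fourier n).continuous⟩
  have him := h μ inferInstance (Measure.AbsolutelyContinuous.refl _)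
    ⟨fun x => ((fourier n x : ℂ)).im, Complex.continuous_im.comp (fourier n).continuous⟩
  have key : ∀ ν : Measure UnitAddCircle, IsProbabilityMeasure ν → ∀ l : ℕ,
      ((∫ x, ((fourier n (l • x) : ℂ)).re ∂ν : ℝ) : ℂ) +
        ((∫ x, ((fourier n (l • x) : ℂ)).im ∂ν : ℝ) : ℂ) * Complex.I = cf ν (l * n) := by
    intro ν hν l
    have hint : Integrable (fun x : UnitAddCircle => (fourier n (l • x) : ℂ)) ν :=
      Integrable.of_bound ((fourier n).continuous.comp (continuous_nsmul l)).aestronglyMeasurable 1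
        (Eventually.of_forall fun x => (norm_fourier n (l • x)).le)
    have h1 : ∫ x, ((fourier n (l • x) : ℂ)).re ∂ν = (∫ x, (fourier n (l • x) : ℂ) ∂ν).re :=
      (integral_re hint)
    have h2 : ∫ x, ((fourier n (l • x) : ℂ)).im ∂ν = (∫ x, (fourier n (l • x) : ℂ) ∂ν).im :=
      (integral_im hint)
    rw [h1, h2, Complex.re_add_im]
    unfold cf
    refine integral_congr_ae (Eventually.of_forall fun x => ?_)
    show (fourier n (l • x) : ℂ) = fourier ((l : ℤ) * n) x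
    rw [fourier_nsmul, mul_comm]
  have h3 : Tendsto (fun l : ℕ => ((∫ x, ((fourier n (l • x) : ℂ)).re ∂μ : ℝ) : ℂ) +
        ((∫ x, ((fourier n (l • x) : ℂ)).im ∂μ : ℝ) : ℂ) * Complex.I) (atTop ⊓ 𝓟 C)
      (𝓝 (((∫ x : UnitAddCircle, ((fourier n x : ℂ)).re : ℝ) : ℂ) +
        ((∫ x : UnitAddCircle, ((fourier n x : ℂ)).im : ℝ) : ℂ) * Complex.I)) :=
    ((Complex.continuous_ofReal.tendsto _).comp hre).add
      (((Complex.continuous_ofReal.tendsto _).comp him).mul_const _)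
  have h4 := key volume hvol 1
  simp only [one_smul] at h4
  rw [h4] at h3
  have h5 : cf volume (((1 : ℕ) : ℤ) * n) = 0 := by
    rw [Nat.cast_one, one_mul]
    exact Pool.Agent.H185.XQ.cf_volume hn
  rw [h5] at h3
  refine h3.congr fun l => ?_
  exact key μ inferInstance l

end Pool.Agent.Helper33.HP
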